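import Mathlib

set_option autoImplicit false
set_option maxHeartbeats 400000

open Filter Topology
open scoped symmDiff

namespace Pool.Agent.Results.MP_60a09a_al.ConstantTwo

section Defs
variable {Γ : Type} [Group Γ]

/-- ball of radius `r` for the word length -/
def ball (S : Finset Γ) (r : ℕ) : Set Γ :=
  {x | ∃ l : List Γ, (∀ s ∈ l, s ∈ S) ∧ l.length ≤ r ∧ l.prod = x}

/-- inner boundary -/
def bdry (S D : Finset Γ) : Set Γ := {x | x ∈ D ∧ ∃ s ∈ S, s * x ∉ D}

/-- Folner function, with value infinity when there is no admissible set -/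
noncomputable def fol (S : Finset Γ) (n : ℕ) : ℕ∞ :=
  ⨅ (D : Finset Γ) (_ : D.Nonempty) (_ : n * (bdry S D).ncard ≤ D.card), (D.card : ℕ∞)

/-- `g⁻¹ (Fol n) / n` for `g x = 2 ^ (x - 1)` -/
noncomputable def ratio (S : Finset Γ) (n : ℕ) : EReal :=
  if fol S n = ⊤ then ⊤ else (((1 + Real.logb 2 (fol S n).toNat) / n : ℝ) : EReal)

/-- symmetric generating set with growth at least `g` -/
def Adm (S : Finset Γ) : Prop :=
  (∀ s ∈ S, s⁻¹ ∈ S) ∧ Subgroup.closure (S : Set Γ) = ⊤ ∧
    ∀ n : ℕ, 1 ≤ n → 2 ^ (n - 1) ≤ (ball S (n - 1)).ncard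

end Defs

section Lower
variable {Γ : Type} [Group Γ] [DecidableEq Γ]

def stay (D : Finset Γ) : List Γ → Finset Γ
  | [] => D
  | s :: l => (stay D l).filter fun y => s * (l.prod * y) ∈ D

def ex (D : Finset Γ) (s : Γ) : Finset Γ := D.filter fun x => s * x ∉ D

theorem stay_sub (D : Finset Γ) (l : List Γ) : ∀ y ∈ stay D l, y ∈ D ∧ l.prod * y ∈ D := by
  induction l with
  | nil => intro y hy; simpa [stay] using hy
  | cons s l ih =>
    intro y hy
    rw [stay, Finset.mem_filter] at hy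
    exact ⟨(ih y hy.1).1, by simpa [mul_assoc] using hy.2⟩

theorem ex_inv (D : Finset Γ) (s : Γ) : (ex D s⁻¹).card = (ex D s).card := by
  have h1 := Finset.card_filter_add_card_filter_not (s := D) (fun x => s * x ∈ D)
  have h2 := Finset.card_filter_add_card_filter_not (s := D) (fun x => s⁻¹ * x ∈ D)
  have h3 : (D.filter fun x => s * x ∈ D).card = (D.filter fun x => s⁻¹ * x ∈ D).card := by
    refine Finset.card_nbij' (fun x => s * x) (fun x => s⁻¹ * x) ?_ ?_ ?_ ?_
    · intro x hx; simp at hx ⊢; exact ⟨hx.2, hx.1⟩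
    · intro x hx; simp at hx ⊢; exact ⟨hx.2, hx.1⟩
    · intro x _; simp
    · intro x _; simp
  unfold ex
  omega

theorem path (S D B : Finset Γ) (hS : ∀ s ∈ S, s⁻¹ ∈ S) (hB : ∀ s ∈ S, ex D s ⊆ B) (l : List Γ) :
    ∀ s ∈ S, (∀ t ∈ l, t ∈ S) →
      2 * D.card ≤ 2 * (stay D (s :: l)).card + (l.length + 1) * B.card + (ex D s).card := by
  induction l with
  | nil =>
    intro s hs _
    have h1 := Finset.card_filter_add_card_filter_not (s := D) (fun x => s * x ∈ D)
    have h2 := Finset.card_le_card (hB s hs)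
    simp only [stay, List.prod_nil, one_mul, List.length_nil, ex] at h2 ⊢
    omega
  | cons t l ih =>
    intro s hs hl
    have ht := hl t (by simp)
    have h0 := ih t ht fun u hu => hl u (by simp [hu])
    have h1 := Finset.card_filter_add_card_filter_not (s := stay D (t :: l))
      (fun y => s * ((t :: l).prod * y) ∈ D)
    have h2 : ((stay D (t :: l)).filter fun y => ¬ s * ((t :: l).prod * y) ∈ D).card ≤
        (ex D s \ ex D t⁻¹).card := by
      refine Finset.card_le_card_of_injOn (fun y => (t :: l).prod * y) ?_ ?_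
      · intro y hy
        simp only [Finset.coe_filter, Set.mem_ofPred_eq] at hy
        have a1 := (stay_sub D _ y hy.1).2
        have a2 := (stay_sub D _ y (Finset.mem_filter.1 hy.1).1).2
        simp only [Finset.coe_sdiff, ex, Finset.coe_filter, Set.mem_sdiff, Set.mem_ofPred_eq]
        refine ⟨⟨a1, hy.2⟩, fun h => h.2 ?_⟩
        simpa [mul_assoc] using a2
      · intro x _ y _ h; exact mul_left_cancel h
    have h3 : (ex D s \ ex D t⁻¹).card ≤ (ex D s).card := Finset.card_le_card Finset.sdiff_subset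
    have h4 : (ex D s \ ex D t⁻¹).card + (ex D t⁻¹).card ≤ B.card := by
      rw [← Finset.card_union_of_disjoint Finset.sdiff_disjoint]
      exact Finset.card_le_card (Finset.union_subset (Finset.sdiff_subset.trans (hB s hs))
        (hB _ (hS t ht)))
    rw [ex_inv] at h4
    have e : stay D (s :: t :: l) = (stay D (t :: l)).filter
      (fun y => s * ((t :: l).prod * y) ∈ D) := rfl
    rw [e, List.length_cons, add_mul (l.length + 1)]
    omega

theorem move (S D B : Finset Γ) (hS : ∀ s ∈ S, s⁻¹ ∈ S) (hB : ∀ s ∈ S, ex D s ⊆ B) (r : ℕ)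
    (g : Γ) (hg : g ∈ ball S r) :
    2 * D.card ≤ 2 * (D.filter fun y => g * y ∈ D).card + (r + 1) * B.card := by
  obtain ⟨l, hl, hr, rfl⟩ := hg
  obtain _ | ⟨s, l⟩ := l
  · simp [Finset.filter_true_of_mem]
  have h1 := path S D B hS hB l s (hl s (by simp)) fun t ht => hl t (by simp [ht])
  have h2 : (stay D (s :: l)).card ≤ (D.filter fun y => (s :: l).prod * y ∈ D).card :=
    Finset.card_le_card fun y hy => Finset.mem_filter.2 (stay_sub D _ y hy)
  have h3 := Finset.card_le_card (hB s (hl s (by simp)))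
  have h4 : (l.length + 1) * B.card ≤ r * B.card := Nat.mul_le_mul_right _ hr
  rw [add_mul]
  omega

theorem lower (S D : Finset Γ) (hS : Adm S) (n : ℕ) (hn : 1 ≤ n) (hD : D.Nonempty)
    (h : n * (bdry S D).ncard ≤ D.card) : 2 ^ (2 * n - 2) ≤ 2 * n * D.card := by
  classical
  have hg := hS.2.2 (2 * n - 1) (by omega)
  rw [show 2 * n - 1 - 1 = 2 * n - 2 by omega] at hg
  have hfin : (ball S (2 * n - 2)).Finite :=
    Set.finite_of_ncard_pos (lt_of_lt_of_le (by positivity) hg)
  rw [Set.ncard_eq_toFinset_card _ hfin] at hg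
  set B := D.filter fun x => ∃ s ∈ S, s * x ∉ D with hB
  have e : bdry S D = B := by ext x; simp [bdry, hB]
  rw [e, Set.ncard_coe_finset] at h
  have h1 : ∀ g ∈ hfin.toFinset, D.card ≤ 2 * n * (D.filter fun y => g * y ∈ D).card := by
    intro g hg
    have := move S D B hS.1 (fun s hs x hx => by
      simp only [ex, hB, Finset.mem_filter] at hx ⊢
      exact ⟨hx.1, s, hs, hx.2⟩) _ g (hfin.mem_toFinset.1 hg)
    obtain ⟨k, rfl⟩ : ∃ k, n = k + 1 := ⟨n - 1, by omega⟩
    rw [show 2 * (k + 1) - 2 + 1 = 2 * k + 1 by omega] at this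
    nlinarith
  have h2 : ∑ g ∈ hfin.toFinset, (D.filter fun y => g * y ∈ D).card ≤ D.card * D.card := by
    simp only [Finset.card_filter]
    rw [Finset.sum_comm]
    refine (Finset.sum_le_card_nsmul _ _ D.card fun y _ => ?_).trans (by simp)
    rw [← Finset.card_filter]
    exact Finset.card_le_card_of_injOn (fun g => g * y)
      (fun g hg => (Finset.mem_filter.1 hg).2) fun a _ b _ h => mul_right_cancel h
  have h3 := Finset.card_nsmul_le_sum _ _ _ h1
  rw [← Finset.mul_sum, smul_eq_mul] at h3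
  have h4 : hfin.toFinset.card * D.card ≤ 2 * n * D.card * D.card := by
    calc _ ≤ _ := h3
      _ ≤ 2 * n * (D.card * D.card) := Nat.mul_le_mul_left _ h2
      _ = _ := by ring
  exact hg.trans (Nat.le_of_mul_le_mul_right h4 hD.card_pos)

end Lower

theorem fol_spec {Γ : Type} [Group Γ] (S : Finset Γ) (n : ℕ) (h : fol S n ≠ ⊤) :
    ∃ D : Finset Γ, D.Nonempty ∧ n * (bdry S D).ncard ≤ D.card ∧ (fol S n).toNat = D.card := by
  have e : fol S n = ⨅ D : {D : Finset Γ // D.Nonempty ∧ n * (bdry S D).ncard ≤ D.card},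
      (D.1.card : ℕ∞) := by
    rw [fol, iInf_subtype]; simp only [iInf_and]
  rcases isEmpty_or_nonempty {D : Finset Γ // D.Nonempty ∧ n * (bdry S D).ncard ≤ D.card} with
    h0 | h0
  · exact absurd (by rw [e, iInf_of_empty]) h
  · obtain ⟨D, hD⟩ := ciInf_mem (fun D : {D : Finset Γ // D.Nonempty ∧
      n * (bdry S D).ncard ≤ D.card} => (D.1.card : ℕ∞))
    exact ⟨D, D.2.1, D.2.2, by rw [e, ← hD]; simp⟩

theorem tend (c : ℝ) : Tendsto (fun n : ℕ => (((2 * n + c + c * Real.logb 2 n) / n : ℝ) : EReal))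
    atTop (𝓝 2) := by
  have h1 : Tendsto (fun x : ℝ => Real.log x / x) atTop (𝓝 0) := by
    simpa using Real.tendsto_pow_log_div_mul_add_atTop 1 0 1 one_ne_zero
  have h2 := (h1.comp tendsto_natCast_atTop_atTop).const_mul (c / Real.log 2)
  have h3 := tendsto_const_div_atTop_nhds_zero_nat c
  have h4 := (h3.add h2).const_add 2
  simp only [mul_zero, add_zero] at h4
  have h5 : Tendsto (fun n : ℕ => ((2 * n + c + c * Real.logb 2 n) / n : ℝ)) atTop (𝓝 2) := by
    refine h4.congr' ?_
    filter_upwards [eventually_ge_atTop 1] with n hn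
    have : (n : ℝ) ≠ 0 := by positivity
    simp only [Function.comp, Real.logb]
    field_simp
    ring
  exact EReal.tendsto_coe.2 h5

theorem two_le {Γ : Type} [Group Γ] (S : Finset Γ) (hS : Adm S) : 2 ≤ liminf (ratio S) atTop := by
  classical
  rw [← (tend (-2)).liminf_eq]
  refine liminf_le_liminf ?_
  filter_upwards [eventually_ge_atTop 1] with n hn
  rw [ratio]
  split_ifs with h
  · exact le_top
  obtain ⟨D, h1, h2, h3⟩ := fol_spec S n h
  have h4 := lower S D hS n hn h1 h2
  have hn' : (1 : ℝ) ≤ n := by exact_mod_cast hn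
  have hD : (0 : ℝ) < D.card := by exact_mod_cast h1.card_pos
  have h5 : ((2 : ℝ)) ^ (2 * n - 2) ≤ 2 * n * D.card := by exact_mod_cast h4
  have h6 := Real.logb_le_logb_of_le one_lt_two (by positivity) h5
  rw [Real.logb_pow, Real.logb_mul (by positivity) hD.ne', Real.logb_mul (by norm_num)
    (by positivity), Real.logb_self_eq_one one_lt_two, Nat.cast_sub (by omega)] at h6
  have h7 := Real.logb_nonneg one_lt_two hn'
  rw [EReal.coe_le_coe_iff, h3]
  refine div_le_div_of_nonneg_right ?_ (by positivity)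
  push_cast at h6
  linarith

/-- the lamplighter group -/
def Lamp : Type := Finset ℤ × ℤ

instance : DecidableEq Lamp := inferInstanceAs (DecidableEq (Finset ℤ × ℤ))

def sh (m : ℤ) (A : Finset ℤ) : Finset ℤ := A.map (addRightEmbedding m)

theorem mem_sh (m : ℤ) (A : Finset ℤ) (x : ℤ) : x ∈ sh m A ↔ x - m ∈ A := by
  simp only [sh, Finset.mem_map, addRightEmbedding_apply]
  exact ⟨by rintro ⟨a, ha, rfl⟩; simpa using ha, fun h => ⟨_, h, by ring⟩⟩

instance : Group Lamp where
  mul g h := (g.1 ∆ sh g.2 h.1, g.2 + h.2)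
  one := (∅, 0)
  inv g := (sh (-g.2) g.1, -g.2)
  mul_assoc g h k := by
    refine Prod.ext ?_ (add_assoc _ _ _)
    change (g.1 ∆ sh g.2 h.1) ∆ sh (g.2 + h.2) k.1 = g.1 ∆ sh g.2 (h.1 ∆ sh h.2 k.1)
    ext x
    simp only [Finset.mem_symmDiff, mem_sh, sub_sub]
    tauto
  one_mul g := by
    refine Prod.ext ?_ (zero_add _)
    change ∅ ∆ sh 0 g.1 = g.1
    ext x; simp [Finset.mem_symmDiff, mem_sh]
  mul_one g := by
    refine Prod.ext ?_ (add_zero _)
    change g.1 ∆ sh g.2 ∅ = g.1
    ext x; simp [Finset.mem_symmDiff, mem_sh]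
  inv_mul_cancel g := by
    refine Prod.ext ?_ (neg_add_cancel _)
    exact symmDiff_self _

def mk (A : Finset ℤ) (m : ℤ) : Lamp := (A, m)

theorem mk_mul (A B : Finset ℤ) (m n : ℤ) : mk A m * mk B n = mk (A ∆ sh m B) (m + n) := rfl

theorem mk_ext {A B : Finset ℤ} {m n : ℤ} (h : ∀ x, x ∈ A ↔ x ∈ B) (h' : m = n) :
    mk A m = mk B n := by rw [Finset.ext h, h']

def gens : Finset Lamp := {mk ∅ 1, mk {0} 1, mk ∅ (-1), mk {-1} (-1)}

theorem gens_symm : ∀ s ∈ gens, s⁻¹ ∈ gens := by decide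

theorem gens_gen : Subgroup.closure (gens : Set Lamp) = ⊤ := by
  set K := Subgroup.closure (gens : Set Lamp)
  have g1 : mk ∅ 1 ∈ K := Subgroup.subset_closure (by simp [gens])
  have g2 : mk {0} 1 ∈ K := Subgroup.subset_closure (by simp [gens])
  have g3 : mk ∅ (-1) ∈ K := Subgroup.subset_closure (by simp [gens])
  have h1 : ∀ m, mk ∅ m ∈ K := by
    intro m
    induction m using Int.induction_on with
    | zero => exact K.one_mem
    | succ i ih =>
      have := K.mul_mem ih g1
      rw [mk_mul] at this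
      convert this using 1
      exact mk_ext (by simp [Finset.mem_symmDiff, mem_sh]) rfl
    | pred i ih =>
      have := K.mul_mem ih g3
      rw [mk_mul] at this
      convert this using 1
      exact mk_ext (by simp [Finset.mem_symmDiff, mem_sh]) (by ring)
  have h2 : ∀ i, mk {i} 0 ∈ K := by
    intro i
    have := K.mul_mem (K.mul_mem (h1 i) g2) (h1 (-1 - i))
    rw [mk_mul, mk_mul] at this
    convert this using 1
    exact mk_ext (by simp [Finset.mem_symmDiff, mem_sh, sub_eq_zero]) (by ring)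
  have h3 : ∀ A, mk A 0 ∈ K := by
    intro A
    induction A using Finset.induction_on with
    | empty => exact h1 0
    | insert a A ha ih =>
      have := K.mul_mem (h2 a) ih
      rw [mk_mul] at this
      convert this using 1
      refine mk_ext (fun x => ?_) (by ring)
      simp only [Finset.mem_symmDiff, mem_sh, Finset.mem_insert, Finset.mem_singleton, sub_zero]
      by_cases h : x = a <;> simp [h, ha]
  rw [eq_top_iff]
  rintro ⟨A, m⟩ -
  have := K.mul_mem (h3 A) (h1 m)
  rw [mk_mul] at this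
  convert this using 1
  exact mk_ext (by simp [Finset.mem_symmDiff, mem_sh]) (by ring)

theorem ball_finite {Γ : Type} [Group Γ] (S : Finset Γ) (r : ℕ) : (ball S r).Finite := by
  refine ((List.finite_length_le S r).image fun l => (l.map Subtype.val).prod).subset ?_
  rintro _ ⟨l, hl, hr, rfl⟩
  refine ⟨l.attachWith _ hl, by simpa using hr, by simp⟩

noncomputable def Lv (h : ℕ) (m : ℤ) : Finset Lamp := (Finset.Ico (m - h) m).powerset.image fun A => mk A m

theorem card_Lv (h : ℕ) (m : ℤ) : (Lv h m).card = 2 ^ h := by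
  rw [Lv, Finset.card_image_of_injective _ (f := fun A => mk A m)
    (fun A B e => congrArg Prod.fst e)]
  simp

theorem mem_Lv (h : ℕ) (m : ℤ) (A : Finset ℤ) (k : ℤ) :
    mk A k ∈ Lv h m ↔ k = m ∧ ∀ x ∈ A, m - h ≤ x ∧ x < m := by
  simp only [Lv, Finset.mem_image, Finset.mem_powerset]
  constructor
  · rintro ⟨B, hB, e⟩
    obtain rfl : B = A := congrArg Prod.fst e
    exact ⟨(congrArg Prod.snd e).symm, fun x hx => Finset.mem_Ico.1 (hB hx)⟩
  · rintro ⟨rfl, h2⟩
    exact ⟨A, fun x hx => Finset.mem_Ico.2 (h2 x hx), rfl⟩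

theorem in_ball (r : ℕ) : ∀ A : Finset ℤ, (∀ x ∈ A, 0 ≤ x ∧ x < r) → mk A r ∈ ball gens r := by
  induction r with
  | zero =>
    intro A hA
    exact ⟨[], by simp, by simp, (mk_ext (B := ∅) (n := 0) (fun x => by
      simp only [Finset.notMem_empty, iff_false]
      intro hx; have := hA x hx; omega) (by simp)).symm⟩
  | succ r ih =>
    intro A hA
    obtain ⟨l, hl, hr, e⟩ := ih (sh (-1) (A.erase 0)) (fun x hx => by
      rw [mem_sh, Finset.mem_erase] at hx
      have := hA _ hx.2
      have := hx.1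
      omega)
    by_cases h0 : (0 : ℤ) ∈ A
    · refine ⟨mk {0} 1 :: l, ?_, by simpa using hr, ?_⟩
      · intro s hs
        rcases List.mem_cons.1 hs with rfl | hs
        exacts [by simp [gens], hl s hs]
      · rw [List.prod_cons, e, mk_mul]
        refine mk_ext (fun x => ?_) (by push_cast; ring)
        by_cases h : x = 0 <;> simp [Finset.mem_symmDiff, mem_sh, h, h0]
    · refine ⟨mk ∅ 1 :: l, ?_, by simpa using hr, ?_⟩
      · intro s hs
        rcases List.mem_cons.1 hs with rfl | hs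
        exacts [by simp [gens], hl s hs]
      · rw [List.prod_cons, e, mk_mul]
        refine mk_ext (fun x => ?_) (by push_cast; ring)
        by_cases h : x = 0 <;> simp [Finset.mem_symmDiff, mem_sh, h, h0]

theorem adm : Adm gens := by
  refine ⟨gens_symm, gens_gen, fun n _ => ?_⟩
  rw [← card_Lv (n - 1) (n - 1 : ℕ), ← Set.ncard_coe_finset]
  refine Set.ncard_le_ncard ?_ (ball_finite _ _)
  rintro ⟨A, k⟩ hx
  obtain ⟨rfl, h⟩ := (mem_Lv _ _ A k).1 hx
  exact in_ball _ A (by simpa using h)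

noncomputable def DD (h : ℕ) : Finset Lamp := (Finset.range (h + 1)).biUnion fun m => Lv h m

theorem card_DD (h : ℕ) : (DD h).card = (h + 1) * 2 ^ h := by
  rw [DD, Finset.card_biUnion]
  · simp [card_Lv]
  · intro a _ b _ hab
    refine Finset.disjoint_left.2 ?_
    rintro ⟨A, k⟩ h1 h2
    have e1 := ((mem_Lv _ _ A k).1 h1).1
    have e2 := ((mem_Lv _ _ A k).1 h2).1
    exact hab (by omega)

theorem mem_DD (h : ℕ) (A : Finset ℤ) (k : ℤ) :
    mk A k ∈ DD h ↔ 0 ≤ k ∧ k ≤ h ∧ ∀ x ∈ A, k - h ≤ x ∧ x < k := by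
  simp only [DD, Finset.mem_biUnion, Finset.mem_range, mem_Lv]
  constructor
  · rintro ⟨m, hm, rfl, h2⟩
    exact ⟨by omega, by omega, h2⟩
  · rintro ⟨h1, h2, h3⟩
    obtain ⟨m, rfl⟩ := Int.eq_ofNat_of_zero_le h1
    exact ⟨m, by omega, rfl, h3⟩

theorem bdry_DD (h : ℕ) : (bdry gens (DD h)).ncard ≤ 2 * 2 ^ h := by
  have : bdry gens (DD h) ⊆ (Lv h 0 ∪ Lv h h : Finset Lamp) := by
    rintro ⟨A, k⟩ ⟨h1, s, hs, h2⟩
    obtain ⟨a1, a2, a3⟩ := (mem_DD h A k).1 h1
    have : mk A k ∈ Lv h 0 ∪ Lv h h := by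
      rw [Finset.mem_union, mem_Lv, mem_Lv]
      by_cases k0 : k = 0
      · subst k0; exact Or.inl ⟨rfl, a3⟩
      by_cases k1 : k = h
      · subst k1; exact Or.inr ⟨rfl, a3⟩
      exfalso
      apply h2
      simp only [gens, Finset.mem_insert, Finset.mem_singleton] at hs
      change s * mk A k ∈ _
      rcases hs with rfl | rfl | rfl | rfl <;> rw [mk_mul, mem_DD] <;>
        refine ⟨by omega, by omega, fun x hx => ?_⟩ <;>
        simp only [Finset.mem_symmDiff, mem_sh, Finset.notMem_empty, Finset.mem_singleton] at hx <;>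
        rcases hx with ⟨hx, -⟩ | ⟨hx, -⟩ <;>
        first
          | exact hx.elim
          | omega
          | (have := a3 _ hx; omega)
    exact this
  refine (Set.ncard_le_ncard this (Finset.finite_toSet _)).trans ?_
  rw [Set.ncard_coe_finset]
  refine (Finset.card_union_le _ _).trans ?_
  rw [card_Lv, card_Lv, two_mul]

theorem le_two : liminf (ratio gens) atTop ≤ 2 := by
  rw [← (tend 1).liminf_eq]
  refine liminf_le_liminf ?_
  filter_upwards [eventually_ge_atTop 1] with n hn
  obtain ⟨k, rfl⟩ : ∃ k, n = k + 1 := ⟨n - 1, by omega⟩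
  have hc := card_DD (2 * k + 1)
  have hle : fol gens (k + 1) ≤ ((DD (2 * k + 1)).card : ℕ) := by
    refine iInf_le_of_le _ (iInf_le_of_le ?_ (iInf_le_of_le ?_ le_rfl))
    · rw [← Finset.card_pos, hc]; positivity
    · rw [hc]; have := bdry_DD (2 * k + 1); nlinarith
  have hne : fol gens (k + 1) ≠ ⊤ := ne_top_of_le_ne_top (ENat.natCast_ne_top _) hle
  obtain ⟨D, h1, -, h3⟩ := fol_spec _ _ hne
  have h4 := ENat.toNat_le_of_le_natCast hle
  rw [ratio, if_neg hne, EReal.coe_le_coe_iff]
  refine div_le_div_of_nonneg_right ?_ (by positivity)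
  rw [h3, hc] at h4
  have hD : (0 : ℝ) < D.card := by exact_mod_cast h1.card_pos
  have h5 : (D.card : ℝ) ≤ ((k + 1 : ℕ) : ℝ) * 2 ^ (2 * (k + 1)) := by
    have : D.card ≤ (k + 1) * 2 ^ (2 * (k + 1)) := h4.trans (le_of_eq (by ring))
    exact_mod_cast this
  have h6 := Real.logb_le_logb_of_le one_lt_two hD h5
  rw [Real.logb_mul (by positivity) (by positivity), Real.logb_pow,
    Real.logb_self_eq_one one_lt_two] at h6
  rw [h3]
  push_cast at h6 ⊢
  linarith

theorem result : IsLeast {x : EReal | ∃ (Γ : Type) (_ : Group Γ) (S : Finset Γ),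
    Adm S ∧ x = liminf (ratio S) atTop} 2 :=
  ⟨⟨Lamp, inferInstance, gens, adm, le_antisymm (two_le _ adm) le_two⟩,
    by rintro _ ⟨Γ, _, S, hS, rfl⟩; exact two_le S hS⟩

end Pool.Agent.Results.MP_60a09a_al.ConstantTwo
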